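import Pool.Agent.Helper29.CY.Goals

set_option autoImplicit false

open Module

namespace Pool.Agent.Helper23.CY.SAM

open Pool.Agent.Helper29.CY

section

variable {V : Type} [NormedAddCommGroup V] [InnerProductSpace ℝ V]

/-- the plane orthogonal to a unit vector in a 3-space -/
lemma plane (W : Submodule ℝ V) (e : V) (hW : finrank ℝ W = 3) (he : e ∈ W) (h1 : ‖e‖ = 1) :
    finrank ℝ ↥((Submodule.span ℝ {e})ᗮ ⊓ W) = 2 := by
  have : FiniteDimensional ℝ W := Module.finite_of_finrank_pos (by omega)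
  have h := Submodule.finrank_add_inf_finrank_orthogonal (K₁ := Submodule.span ℝ {e}) (K₂ := W) (by
    rw [Submodule.span_le]; simpa using he)
  have h2 : finrank ℝ (Submodule.span ℝ {e}) = 1 := finrank_span_singleton (by
    intro h; rw [h] at h1; simp at h1)
  omega

lemma mem_plane (W : Submodule ℝ V) (e v : V) (hv : v ∈ W) (h : inner ℝ e v = 0) :
    v ∈ (Submodule.span ℝ {e})ᗮ ⊓ W := by
  exact Submodule.mem_inf.2 ⟨Submodule.mem_orthogonal_singleton_iff_inner_right.2 h, hv⟩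

lemma coordP (P : Submodule ℝ V) (hP : finrank ℝ P = 2) : ∃ f g : V,
    ∀ v ∈ P, ∀ w ∈ P, inner ℝ v w = inner ℝ f v * inner ℝ f w + inner ℝ g v * inner ℝ g w := by
  have : FiniteDimensional ℝ P := Module.finite_of_finrank_pos (by omega)
  let b : OrthonormalBasis (Fin 2) ℝ P := (stdOrthonormalBasis ℝ P).reindex (finCongr hP)
  refine ⟨(b 0 : V), (b 1 : V), ?_⟩
  intro v hv w hw
  have h := b.sum_inner_mul_inner (⟨v, hv⟩ : P) (⟨w, hw⟩ : P)
  rw [Fin.sum_univ_two] at h
  simp only [Submodule.coe_inner] at h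
  rw [← h, real_inner_comm v (b 0 : V), real_inner_comm v (b 1 : V)]

/-- coordinates on the plane orthogonal to `e` -/
lemma PC (W : Submodule ℝ V) (e : V) (hW : finrank ℝ W = 3) (he : e ∈ W) (h1 : ‖e‖ = 1) :
    ∃ f g : V, ∀ v ∈ W, ∀ w ∈ W, inner ℝ e v = 0 → inner ℝ e w = 0 →
      inner ℝ v w = inner ℝ f v * inner ℝ f w + inner ℝ g v * inner ℝ g w := by
  obtain ⟨f, g, h⟩ := coordP _ (plane W e hW he h1)
  exact ⟨f, g, fun v hv w hw h2 h3 => h v (mem_plane W e v hv h2) w (mem_plane W e w hw h3)⟩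

lemma self_one {v : V} (h : ‖v‖ = 1) : inner ℝ v v = (1 : ℝ) := by
  rw [real_inner_self_eq_norm_sq, h]; norm_num

/-- a vector orthogonal to three independent vectors of a 3-space vanishes -/
lemma Z (W : Submodule ℝ V) (e a b v : V) (hW : finrank ℝ W = 3) (he : e ∈ W) (h1 : ‖e‖ = 1)
    (ha : a ∈ W) (hb : b ∈ W) (hv : v ∈ W) (na : ‖a‖ = 1) (nb : ‖b‖ = 1)
    (ea : inner ℝ e a = 0) (eb : inner ℝ e b = 0) (hab : |inner ℝ a b| ≤ 1 / 2)
    (ev : inner ℝ e v = 0) (av : inner ℝ a v = 0) (bv : inner ℝ b v = 0) : v = 0 := by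
  obtain ⟨f, g, h⟩ := PC W e hW he h1
  have haa := h a ha a ha ea ea
  have hbb := h b hb b hb eb eb
  have hab' := h a ha b hb ea eb
  have hav := h a ha v hv ea ev
  have hbv := h b hb v hv eb ev
  have hvv := h v hv v hv ev ev
  rw [self_one na] at haa
  rw [self_one nb] at hbb
  rw [av] at hav
  rw [bv] at hbv
  set pa := inner ℝ f a
  set qa := inner ℝ g a
  set pb := inner ℝ f b
  set qb := inner ℝ g b
  set pv := inner ℝ f v
  set qv := inner ℝ g v
  have hd : (pa * qb - qa * pb) ^ 2 = 1 - inner ℝ a b ^ 2 := by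
    rw [hab']; nlinarith [haa, hbb]
  have hd2 : 3 / 4 ≤ (pa * qb - qa * pb) ^ 2 := by
    rw [hd]
    have := abs_le.1 hab
    nlinarith
  have hd0 : pa * qb - qa * pb ≠ 0 := by
    intro h0; rw [h0] at hd2; norm_num at hd2
  have h3 : (pa * qb - qa * pb) * pv = 0 := by
    linear_combination (-qb) * hav + qa * hbv
  have h4 : (pa * qb - qa * pb) * qv = 0 := by
    linear_combination pb * hav - pa * hbv
  have h5 : pv = 0 := by
    rcases mul_eq_zero.1 h3 with h | h
    · exact absurd h hd0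
    · exact h
  have h6 : qv = 0 := by
    rcases mul_eq_zero.1 h4 with h | h
    · exact absurd h hd0
    · exact h
  rw [h5, h6] at hvv
  have : inner ℝ v v = (0 : ℝ) := by rw [hvv]; ring
  exact inner_self_eq_zero.1 this

lemma gram2 (W : Submodule ℝ V) (e a b y : V) (hW : finrank ℝ W = 3) (he : e ∈ W) (h1 : ‖e‖ = 1)
    (ha : a ∈ W) (hb : b ∈ W) (hy : y ∈ W) (na : ‖a‖ = 1) (nb : ‖b‖ = 1) (ny : ‖y‖ = 1)
    (ea : inner ℝ e a = 0) (eb : inner ℝ e b = 0) (ey : inner ℝ e y = 0) :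
    1 - inner ℝ a y ^ 2 - inner ℝ b y ^ 2 - inner ℝ a b ^ 2
      + 2 * (inner ℝ a y * inner ℝ b y * inner ℝ a b) = 0 := by
  obtain ⟨f, g, h⟩ := PC W e hW he h1
  have haa := h a ha a ha ea ea
  have hbb := h b hb b hb eb eb
  have hyy := h y hy y hy ey ey
  have hab' := h a ha b hb ea eb
  have hay := h a ha y hy ea ey
  have hby := h b hb y hy eb ey
  rw [self_one na] at haa
  rw [self_one nb] at hbb
  rw [self_one ny] at hyy
  rw [hab', hay, hby]
  set pa := inner ℝ f a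
  set qa := inner ℝ g a
  set pb := inner ℝ f b
  set qb := inner ℝ g b
  set py := inner ℝ f y
  set qy := inner ℝ g y
  have e1 : pa * pa = 1 - qa * qa := by linarith
  have e2 : pb * pb = 1 - qb * qb := by linarith
  have e3 : py * py = 1 - qy * qy := by linarith
  -- Gram determinant of three vectors of the plane
  have key : (pa * pa + qa * qa) * (pb * pb + qb * qb) * (py * py + qy * qy)
      - (pa * py + qa * qy) ^ 2 * (pb * pb + qb * qb)
      - (pb * py + qb * qy) ^ 2 * (pa * pa + qa * qa)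
      - (pa * pb + qa * qb) ^ 2 * (py * py + qy * qy)
      + 2 * ((pa * py + qa * qy) * (pb * py + qb * qy) * (pa * pb + qa * qb)) = 0 := by ring
  rw [← haa, ← hbb, ← hyy] at key
  linarith [key]

/-- real-number content of the analysis of a member of `B` -/
lemma real_core (g κ κ' : ℝ) (hg : g ^ 2 ≤ 1 / 4) (hk : 3 / 4 ≤ κ ^ 2) (hk' : 3 / 4 ≤ κ' ^ 2)
    (k1' : κ' ^ 2 ≤ 1)
    (hG : 1 - κ ^ 2 - κ' ^ 2 - g ^ 2 + 2 * (κ * κ' * g) = 0) :
    κ ^ 2 = 3 / 4 ∧ κ' ^ 2 = 3 / 4 ∧ κ * κ' = 3 / 2 * g := by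
  have h1 : (κ * κ' - g) ^ 2 = (1 - κ ^ 2) * (1 - κ' ^ 2) := by nlinarith
  have h2 : (1 - κ ^ 2) * (1 - κ' ^ 2) ≤ 1 / 16 := by nlinarith
  have h3 : 9 / 16 ≤ (κ * κ') ^ 2 := by nlinarith
  have h4 : |κ * κ' - g| ≤ 1 / 4 := by
    apply abs_le_of_sq_le_sq' _ (by norm_num) |> abs_le.2
    rw [h1]; linarith
  have h5 : |g| ≤ 1 / 2 := by
    apply abs_le.2
    apply abs_le_of_sq_le_sq' _ (by norm_num)
    linarith
  have h6 : 3 / 4 ≤ |κ * κ'| := by
    have := Real.sqrt_le_sqrt h3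
    rw [Real.sqrt_sq_eq_abs] at this
    have h7 : Real.sqrt (9 / 16) = 3 / 4 := by
      rw [show (9 / 16 : ℝ) = (3 / 4) ^ 2 by norm_num]
      exact Real.sqrt_sq (by norm_num)
    rwa [h7] at this
  have h7 : (κ * κ') ^ 2 = 9 / 16 := by
    have : |κ * κ'| ≤ 3 / 4 := by
      have := abs_add_le (κ * κ' - g) g
      rw [sub_add_cancel] at this
      linarith
    have h8 : |κ * κ'| = 3 / 4 := le_antisymm this h6
    rw [← sq_abs, h8]; norm_num
  have h8 : κ ^ 2 = 3 / 4 := by nlinarith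
  have h9 : κ' ^ 2 = 3 / 4 := by nlinarith
  refine ⟨h8, h9, ?_⟩
  have h10 : (κ * κ' - 3 / 2 * g) * (κ * κ' - 1 / 2 * g) = 0 := by
    nlinarith
  rcases mul_eq_zero.1 h10 with h | h
  · linarith
  · exfalso
    have : κ * κ' = 1 / 2 * g := by linarith
    rw [this] at h7
    nlinarith

/-- two orthonormal vectors of a subspace of dimension at most two span it -/
lemma le_span (P : Submodule ℝ V) (hP : finrank ℝ P ≤ 2) [FiniteDimensional ℝ P] (e y : V)
    (he : e ∈ P) (hy : y ∈ P) (h1 : ‖e‖ = 1) (h2 : ‖y‖ = 1) (h : inner ℝ e y = 0) :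
    P ≤ Submodule.span ℝ {e, y} := by
  have ho : Orthonormal ℝ ![e, y] := by
    constructor
    · intro i
      fin_cases i
      · simpa using h1
      · simpa using h2
    · intro i j hij
      fin_cases i <;> fin_cases j
      · exact absurd rfl hij
      · simpa using h
      · simpa [real_inner_comm] using h
      · exact absurd rfl hij
  have hf := finrank_span_eq_card ho.linearIndependent
  have hr : Set.range ![e, y] = {e, y} := by
    ext z
    simp only [Matrix.range_cons, Matrix.range_empty, Set.union_empty, Set.mem_union,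
      Set.mem_singleton_iff, Set.mem_insert_iff]
  rw [hr] at hf
  simp only [Fintype.card_fin] at hf
  have hle : Submodule.span ℝ {e, y} ≤ P := by
    rw [Submodule.span_le]
    intro z hz
    rcases hz with rfl | hz
    · exact he
    · rw [Set.mem_singleton_iff] at hz; rw [hz]; exact hy
  have heq := Submodule.eq_of_le_of_finrank_le hle (by rw [hf]; exact hP)
  rw [heq]

/-- a unit vector of the plane of `e, y` orthogonal to `e` is `y` or `-y` -/
lemma pm {e y z : V} (h1 : ‖e‖ = 1) (h2 : ‖y‖ = 1) (h3 : ‖z‖ = 1) (hey : inner ℝ e y = 0)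
    (hez : inner ℝ e z = 0) (hz : z ∈ Submodule.span ℝ {e, y}) : z = y ∨ z = -y := by
  rw [Submodule.mem_span_pair] at hz
  obtain ⟨a, b, rfl⟩ := hz
  rw [inner_add_right, inner_smul_right, inner_smul_right, self_one h1, hey] at hez
  have ha : a = 0 := by linarith
  subst ha
  rw [zero_smul, zero_add] at h3 ⊢
  rw [norm_smul, h2, mul_one, Real.norm_eq_abs] at h3
  rcases abs_eq (by norm_num : (0:ℝ) ≤ 1) |>.1 h3 with h | h
  · left; rw [h, one_smul]
  · right; rw [h, neg_one_smul]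

end

variable {n : ℕ} {V : Type} [NormedAddCommGroup V] [InnerProductSpace ℝ V]
  {N : Fin n → Submodule ℝ V} {u : Fin n → V}

/-- (a) -/
lemma pa (hBAS : S_BAS) (hc : Conf N u) {k k' : Fin n} (hkk : k ≠ k')
    (hN : N k = N k') (m : Fin n) : ¬ Arr N u k m := by
  intro h
  have hm : m ≠ k' := by
    rintro rfl
    have h1 := h.2.2.2
    rw [← hN, inf_idem] at h1
    have h2 := Submodule.finrank_mono h1
    rw [hc.dim] at h2
    have h3 := finrank_span_le_card (R := ℝ) ({u k} : Set V)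
    simp at h3
    omega
  have hB := (hBAS n V N u hc k' m hm.symm).2.1 (u k) (hc.nrm k) (by
    rw [← hN]; exact h.2.2.2)
  have h1 := (hBAS n V N u hc k' k hkk.symm).1
  have h2 := (hBAS n V N u hc m k h.1.symm).1
  rcases hB with hB | hB
  · rw [hB.1] at h1; norm_num at h1
  · rw [hB.2] at h2; norm_num at h2

/-- (b) -/
lemma pb (hBAS : S_BAS) (hc : Conf N u) {i k k' : Fin n} (h1 : Arr N u i k) (h2 : Arr N u i k')
    (hkk : k ≠ k') (hN : N k = N k') (l : Fin n) (hl : Arr N u l k) : l = i := by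
  by_contra hli
  have hlk' : l ≠ k' := by
    rintro rfl
    have h1 := hl.2.2.2
    rw [hN, inf_idem] at h1
    have h2 := Submodule.finrank_mono h1
    rw [hc.dim] at h2
    have h3 := finrank_span_le_card (R := ℝ) ({u l} : Set V)
    simp at h3
    omega
  have hB := (hBAS n V N u hc l k' hlk').2.1 (u l) (hc.nrm l) (by
    rw [← hN]; exact hl.2.2.2)
  have hk'l : inner ℝ (u k') (u l) = 0 := by
    rcases hB with hB | hB
    · exact hB.2
    · rw [self_one (hc.nrm l)] at hB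
      exact absurd hB.1 (by norm_num)
  have hil := (hBAS n V N u hc i l (Ne.symm hli)).1
  have hei : u i ∈ N k := h1.2.1
  have hki : inner ℝ (u k) (u i) = 0 := by rw [real_inner_comm]; exact h1.2.2.1
  have hk'i : inner ℝ (u k') (u i) = 0 := by rw [real_inner_comm]; exact h2.2.2.1
  have hkl : inner ℝ (u k) (u l) = 0 := by rw [real_inner_comm]; exact hl.2.2.1
  have hz := Z (N k) (u i) (u k) (u k') (u l - inner ℝ (u i) (u l) • u i) (hc.dim k) hei
    (hc.nrm i) (hc.mem k) (by rw [hN]; exact hc.mem k')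
    ((N k).sub_mem hl.2.1 ((N k).smul_mem _ hei)) (hc.nrm k) (hc.nrm k') h1.2.2.1 h2.2.2.1
    (hBAS n V N u hc k k' hkk).1
    (by rw [inner_sub_right, inner_smul_right, self_one (hc.nrm i)]; ring)
    (by rw [inner_sub_right, inner_smul_right, hkl, hki]; ring)
    (by rw [inner_sub_right, inner_smul_right, hk'l, hk'i]; ring)
  rw [sub_eq_zero] at hz
  have hn := congrArg norm hz
  rw [norm_smul, hc.nrm, hc.nrm, mul_one, Real.norm_eq_abs] at hn
  rw [← hn] at hil
  norm_num at hil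

lemma fd (hc : Conf N u) (l : Fin n) : FiniteDimensional ℝ (N l) :=
  Module.finite_of_finrank_pos (by rw [hc.dim]; norm_num)

lemma orth' {i k : Fin n} (h : Arr N u i k) : inner ℝ (u k) (u i) = 0 := by
  rw [real_inner_comm]; exact h.2.2.1

/-- (c): all targets have the normal space of `k` -/
lemma pc (hLA : S_LA) (hBAS : S_BAS) (hNBR : S_NBR) (hc : Conf N u) {i k k' : Fin n}
    (h1 : Arr N u i k) (h2 : Arr N u i k')
    (hkk : k ≠ k') (hN : N k = N k') (l : Fin n) (hl : Arr N u i l) (hlk : l ≠ k) (hlk' : l ≠ k') :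
    N l = N k := by
  by_contra hne
  have hnr := (hNBR n V N u hc).1 i k l h1 hl hlk.symm
  have hle := hLA.2.1 V (N k) (N l) (hc.dim k) (hc.dim l) (Ne.symm hne)
  have h2' : finrank ℝ ↥(N k ⊓ N l) = 2 := le_antisymm hle hnr
  obtain ⟨w, hwP, nw, ew, hsp⟩ := hLA.2.2.1 V (N k ⊓ N l) (u i) h2' ⟨h1.2.1, hl.2.1⟩ (hc.nrm i)
  have B1 := (hBAS n V N u hc k l hlk.symm).2.2.2.1 (u i) w (hc.nrm i) nw ew hsp
    (orth' h1) (orth' hl)
  have B2 := (hBAS n V N u hc k' l hlk'.symm).2.2.2.1 (u i) w (hc.nrm i) nw ew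
    (by rw [← hN]; exact hsp) (orth' h2) (orth' hl)
  have ww := self_one nw
  have hl1 : ∀ j : Fin n, (u j = w ∨ u j = -w) → inner ℝ (u j) w ≠ 0 := by
    intro j hj h0
    rcases hj with hj | hj
    · rw [hj, ww] at h0; norm_num at h0
    · rw [hj, inner_neg_left, ww] at h0; norm_num at h0
  have hk1 : inner ℝ (u k) w = 0 := by
    rcases B1 with B1 | B1
    · rcases B2 with B2 | B2
      · exfalso
        have hh := (hBAS n V N u hc k k' hkk).1
        have : |inner ℝ (u k) (u k')| = 1 := by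
          rcases B1.1 with a | a <;> rcases B2.1 with b | b <;> rw [a, b] <;>
            simp [inner_neg_left, inner_neg_right]
          all_goals rw [nw]; norm_num
        rw [this] at hh; norm_num at hh
      · exact absurd B1.2 (hl1 l B2.1)
    · exact B1.2
  have hk2 : inner ℝ (u k') w = 0 := by
    rcases B2 with B2 | B2
    · rcases B1 with B1 | B1
      · exact absurd hk1 (hl1 k B1.1)
      · exact absurd B2.2 (hl1 l B1.1)
    · exact B2.2
  have hz := Z (N k) (u i) (u k) (u k') w (hc.dim k) h1.2.1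
    (hc.nrm i) (hc.mem k) (by rw [hN]; exact hc.mem k') hwP.1 (hc.nrm k) (hc.nrm k') h1.2.2.1
    h2.2.2.1 (hBAS n V N u hc k k' hkk).1 ew hk1 hk2
  rw [hz] at nw; simp at nw

/-- the two alternatives of `ELL` in the shape used below -/
lemma alt (hELL : S_ELL) (hc : Conf N u) {i k l : Fin n} (h : Arr N u i k) (h1 : NR N l i)
    (h2 : NR N l k) : ∃ y : V, y ∈ N k ∧ y ∈ N l ∧ ‖y‖ = 1 ∧ inner ℝ (u i) y = 0 ∧ u i ∈ N l ∧
      N l ⊓ N k ≤ Submodule.span ℝ {u i, y} ∧
      ((inner ℝ (u k) y = 0 ∧ inner ℝ (u l) y ^ 2 = 1 - inner ℝ (u l) (u i) ^ 2) ∨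
       (|inner ℝ (u l) y| < |inner ℝ (u k) y| ∧
        1 - inner ℝ (u l) (u i) ^ 2 ≤ (|inner ℝ (u k) y| - |inner ℝ (u l) y|) ^ 2)) := by
  obtain ⟨x, y, h3⟩ := hELL n V N u hc i k l h h1 h2
  rcases h3 with h3 | h3
  · refine ⟨y, h3.1.yk, h3.1.yl, h3.1.yn, h3.1.ey, h3.1.el, h3.1.lk, Or.inl ⟨h3.2.1, ?_⟩⟩
    have h4 := self_one (hc.nrm l)
    have h5 := h3.2.2
    have h6 : inner ℝ (u l) (u l) = inner ℝ (u l) (u i) ^ 2 + inner ℝ (u l) y ^ 2 := by
      conv_lhs => rw [h5]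
      rw [inner_add_left, inner_add_right, inner_add_right]
      simp only [inner_smul_left, inner_smul_right, self_one (hc.nrm i), self_one h3.1.yn, h3.1.ey,
        real_inner_comm (u i) y]
      simp
      ring
    rw [h4] at h6
    linarith
  · exact ⟨y, h3.1.yk, h3.1.yl, h3.1.yn, h3.1.ey, h3.1.el, h3.1.lk, Or.inr ⟨h3.2.1, h3.2.2⟩⟩

/-- real-number content: both alternatives are of the second kind -/
lemma real_alt (κ κ' η α : ℝ) (hα : |α| ≤ 1 / 2) (hk' : |κ'| ≤ 1)
    (h1 : (κ = 0 ∧ η ^ 2 = 1 - α ^ 2) ∨ (|η| < |κ| ∧ 1 - α ^ 2 ≤ (|κ| - |η|) ^ 2))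
    (h2 : (κ' = 0 ∧ η ^ 2 = 1 - α ^ 2) ∨ (|η| < |κ'| ∧ 1 - α ^ 2 ≤ (|κ'| - |η|) ^ 2))
    (h0 : κ = 0 → κ' = 0 → False) :
    |η| < |κ| ∧ 1 - α ^ 2 ≤ (|κ| - |η|) ^ 2 := by
  have ha : α ^ 2 ≤ 1 / 4 := by
    have := abs_le.1 hα
    nlinarith
  rcases h1 with h1 | h1
  · rcases h2 with h2 | h2
    · exact absurd h2.1 (fun h => h0 h1.1 h)
    · exfalso
      have h3 : |η| ^ 2 = 1 - α ^ 2 := by rw [sq_abs]; exact h1.2
      have h4 := abs_nonneg η
      nlinarith [h2.1, h2.2]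
  · exact h1

lemma real_fin (κ η α : ℝ) (hα : |α| ≤ 1 / 2)
    (h : |η| < |κ| ∧ 1 - α ^ 2 ≤ (|κ| - |η|) ^ 2) :
    3 / 4 ≤ κ ^ 2 ∧ (κ ^ 2 = 3 / 4 → η = 0 ∧ α ^ 2 = 1 / 4) := by
  have ha : α ^ 2 ≤ 1 / 4 := by
    have := abs_le.1 hα
    nlinarith
  have h4 := abs_nonneg η
  have h5 : (|κ| - |η|) ^ 2 ≤ κ ^ 2 := by
    rw [← sq_abs κ]; nlinarith [h.1]
  constructor
  · linarith [h.2]
  · intro h6
    have h7 : α ^ 2 = 1 / 4 := by linarith [h.2]
    refine ⟨?_, h7⟩
    have h8 : (|κ| - |η|) ^ 2 = |κ| ^ 2 := by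
      rw [sq_abs κ]; linarith [h.2]
    have h9 : |η| * (2 * |κ| - |η|) = 0 := by nlinarith
    rcases mul_eq_zero.1 h9 with h10 | h10
    · exact abs_eq_zero.1 h10
    · exfalso; linarith [h.1]

/-- a member non-rigid with `i` and `k` -/
lemma coreB (hBAS : S_BAS) (hELL : S_ELL) (hc : Conf N u) {i k k' l : Fin n}
    (h1 : Arr N u i k) (h2 : Arr N u i k') (hkk : k ≠ k') (hN : N k = N k') (hli : l ≠ i)
    (n1 : NR N l i) (n2 : NR N l k) :
    ∃ y : V, y ∈ N k ∧ y ∈ N l ∧ ‖y‖ = 1 ∧ inner ℝ (u i) y = 0 ∧ u i ∈ N l ∧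
      N l ⊓ N k ≤ Submodule.span ℝ {u i, y} ∧
      inner ℝ (u k) y ^ 2 = 3 / 4 ∧ inner ℝ (u k) y * inner ℝ (u k') y = 3 / 2 * inner ℝ (u k) (u k')
      ∧ inner ℝ (u l) y = 0 ∧ inner ℝ (u l) (u i) ^ 2 = 1 / 4 := by
  have hk'N : u k' ∈ N k := by rw [hN]; exact hc.mem k'
  have hg := (hBAS n V N u hc k k' hkk).1
  obtain ⟨y, yk, yl, yn, ey, el, lk, A1⟩ := alt hELL hc h1 n1 n2
  obtain ⟨z, zk, zl, zn, ez, -, -, A2⟩ := alt hELL hc h2 n1 (by
    unfold NR at n2 ⊢; rw [← hN]; exact n2)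
  rw [← hN] at zk
  have hz := pm (hc.nrm i) yn zn ey ez (lk ⟨zl, zk⟩)
  have A2' : ((inner ℝ (u k') y = 0 ∧ inner ℝ (u l) y ^ 2 = 1 - inner ℝ (u l) (u i) ^ 2) ∨
       (|inner ℝ (u l) y| < |inner ℝ (u k') y| ∧
        1 - inner ℝ (u l) (u i) ^ 2 ≤ (|inner ℝ (u k') y| - |inner ℝ (u l) y|) ^ 2)) := by
    rcases hz with hz | hz
    · rw [hz] at A2; exact A2
    · rw [hz] at A2
      simp only [inner_neg_right, abs_neg, neg_eq_zero, neg_sq] at A2
      exact A2
  have hα := (hBAS n V N u hc l i hli).1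
  have b1 : |inner ℝ (u k) y| ≤ 1 := by
    have := abs_real_inner_le_norm (u k) y
    rwa [hc.nrm, yn, one_mul] at this
  have b2 : |inner ℝ (u k') y| ≤ 1 := by
    have := abs_real_inner_le_norm (u k') y
    rwa [hc.nrm, yn, one_mul] at this
  have h0 : inner ℝ (u k) y = 0 → inner ℝ (u k') y = 0 → False := by
    intro p q
    have hz := Z (N k) (u i) (u k) (u k') y (hc.dim k) h1.2.1
      (hc.nrm i) (hc.mem k) hk'N yk (hc.nrm k) (hc.nrm k') h1.2.2.1
      h2.2.2.1 hg ey p q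
    rw [hz] at yn; simp at yn
  have C1 := real_alt _ _ _ _ hα b2 A1 A2' h0
  have C2 := real_alt _ _ _ _ hα b1 A2' A1 (fun a b => h0 b a)
  have D1 := real_fin _ _ _ hα C1
  have D2 := real_fin _ _ _ hα C2
  have G := gram2 (N k) (u i) (u k) (u k') y (hc.dim k) h1.2.1 (hc.nrm i) (hc.mem k) hk'N yk
    (hc.nrm k) (hc.nrm k') yn h1.2.2.1 h2.2.2.1 ey
  have sq1 : ∀ t : ℝ, |t| ≤ 1 → t ^ 2 ≤ 1 := by
    intro t ht
    have := abs_le.1 ht
    nlinarith
  have hg2 : inner ℝ (u k) (u k') ^ 2 ≤ (1 / 4 : ℝ) := by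
    have := abs_le.1 hg
    nlinarith
  have E := real_core (inner ℝ (u k) (u k')) (inner ℝ (u k) y) (inner ℝ (u k') y) hg2 D1.1 D2.1
    (sq1 _ b2) G
  exact ⟨y, yk, yl, yn, ey, el, lk, E.1, E.2.2, (D1.2 E.1).1, (D1.2 E.1).2⟩

/-- (d): a third target excludes `B` -/
lemma pd (hBAS : S_BAS) (hELL : S_ELL) (hc : Conf N u) {i k k' k'' l : Fin n}
    (h1 : Arr N u i k) (h2 : Arr N u i k') (h3 : Arr N u i k'') (hkk : k ≠ k') (hk3 : k ≠ k'')
    (hk23 : k' ≠ k'') (hN : N k = N k') (hN3 : N k = N k'') (hli : l ≠ i)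
    (n1 : NR N l i) (n2 : NR N l k) : False := by
  obtain ⟨y, yk, yl, yn, ey, el, lk, E1, E2, -, -⟩ := coreB hBAS hELL hc h1 h2 hkk hN hli n1 n2
  obtain ⟨z, zk, zl, zn, ez, -, -, F1, F2, -, -⟩ := coreB hBAS hELL hc h1 h3 hk3 hN3 hli n1 n2
  obtain ⟨t, tk, tl, tn, et, -, -, G1, G2, -, -⟩ := coreB hBAS hELL hc h2 h3 hk23
    (hN.symm.trans hN3) hli n1 (by unfold NR at n2 ⊢; rw [← hN]; exact n2)
  rw [← hN] at tk
  have hz := pm (hc.nrm i) yn zn ey ez (lk ⟨zl, zk⟩)
  have ht := pm (hc.nrm i) yn tn ey et (lk ⟨tl, tk⟩)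
  have F2' : inner ℝ (u k) y * inner ℝ (u k'') y = 3 / 2 * inner ℝ (u k) (u k'') := by
    rcases hz with hz | hz
    · rw [hz] at F2; exact F2
    · rw [hz] at F2; simp only [inner_neg_right, neg_mul_neg] at F2; exact F2
  have G2' : inner ℝ (u k') y * inner ℝ (u k'') y = 3 / 2 * inner ℝ (u k') (u k'') := by
    rcases ht with ht | ht
    · rw [ht] at G2; exact G2
    · rw [ht] at G2; simp only [inner_neg_right, neg_mul_neg] at G2; exact G2
  have G := gram2 (N k) (u i) (u k) (u k') (u k'') (hc.dim k) h1.2.1 (hc.nrm i) (hc.mem k)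
    (by rw [hN]; exact hc.mem k') (by rw [hN3]; exact hc.mem k'')
    (hc.nrm k) (hc.nrm k') (hc.nrm k'') h1.2.2.1 h2.2.2.1 h3.2.2.1
  have g1 := abs_le.1 (hBAS n V N u hc k k' hkk).1
  have g2 := abs_le.1 (hBAS n V N u hc k k'' hk3).1
  have g3 := abs_le.1 (hBAS n V N u hc k' k'' hk23).1
  set a := inner ℝ (u k) (u k')
  set b := inner ℝ (u k) (u k'')
  set c := inner ℝ (u k') (u k'')
  have hp : 27 / 8 * (a * b * c) =
      (inner ℝ (u k) y * inner ℝ (u k') y * inner ℝ (u k'') y) ^ 2 := by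
    linear_combination (-(3 / 2 * b) * (3 / 2 * c)) * E2
      - (inner ℝ (u k) y * inner ℝ (u k') y) * (3 / 2 * c) * F2'
      - (inner ℝ (u k) y * inner ℝ (u k') y) * (inner ℝ (u k) y * inner ℝ (u k'') y) * G2'
  have hp2 : 0 ≤ a * b * c := by
    have := sq_nonneg (inner ℝ (u k) y * inner ℝ (u k') y * inner ℝ (u k'') y)
    linarith
  have a2 : a ^ 2 ≤ 1 / 4 := by nlinarith
  have b2 : b ^ 2 ≤ 1 / 4 := by nlinarith
  have c2 : c ^ 2 ≤ 1 / 4 := by nlinarith
  nlinarith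

/-- (e), first part: the line of `y` is the same for two members of `B`, and so is the space -/
lemma pe (hLA : S_LA) (hBAS : S_BAS) (hc : Conf N u) {i k k' l m : Fin n}
    (h1 : Arr N u i k) (h2 : Arr N u i k') (hkk : k ≠ k') (hN : N k = N k') (hlm : l ≠ m)
    {y z : V} (yk : y ∈ N k) (yl : y ∈ N l) (yn : ‖y‖ = 1) (ey : inner ℝ (u i) y = 0)
    (el : u i ∈ N l) (E1 : inner ℝ (u k) y ^ 2 = 3 / 4)
    (E2 : inner ℝ (u k) y * inner ℝ (u k') y = 3 / 2 * inner ℝ (u k) (u k'))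
    (E3 : inner ℝ (u l) y = 0) (E4 : inner ℝ (u l) (u i) ^ 2 = 1 / 4)
    (zk : z ∈ N k) (zm : z ∈ N m) (_ : ‖z‖ = 1) (ez : inner ℝ (u i) z = 0)
    (em : u i ∈ N m) (F1 : inner ℝ (u k) z ^ 2 = 3 / 4)
    (F2 : inner ℝ (u k) z * inner ℝ (u k') z = 3 / 2 * inner ℝ (u k) (u k'))
    (F3 : inner ℝ (u m) z = 0) (F4 : inner ℝ (u m) (u i) ^ 2 = 1 / 4) :
    N m = N l ∧ inner ℝ (u m) y = 0 := by
  have hk'N : u k' ∈ N k := by rw [hN]; exact hc.mem k'
  have hg := (hBAS n V N u hc k k' hkk).1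
  have hzy : z = y ∨ z = -y := by
    have h3 : (inner ℝ (u k) z - inner ℝ (u k) y) * (inner ℝ (u k) z + inner ℝ (u k) y) = 0 := by
      linear_combination F1 - E1
    have hne : inner ℝ (u k) z ≠ 0 := by
      intro h; rw [h] at F1; norm_num at F1
    rcases mul_eq_zero.1 h3 with h4 | h4
    · left
      have h5 : inner ℝ (u k) z = inner ℝ (u k) y := by linarith
      have h6 : inner ℝ (u k) z * (inner ℝ (u k') z - inner ℝ (u k') y) = 0 := by
        rw [mul_sub, F2, h5, E2]; ring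
      have h7 : inner ℝ (u k') z - inner ℝ (u k') y = 0 := by
        rcases mul_eq_zero.1 h6 with h | h
        · exact absurd h hne
        · exact h
      have hz := Z (N k) (u i) (u k) (u k') (z - y) (hc.dim k) h1.2.1
        (hc.nrm i) (hc.mem k) hk'N ((N k).sub_mem zk yk) (hc.nrm k) (hc.nrm k') h1.2.2.1
        h2.2.2.1 hg (by rw [inner_sub_right, ey, ez]; ring)
        (by rw [inner_sub_right]; exact h4) (by rw [inner_sub_right]; exact h7)
      exact sub_eq_zero.1 hz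
    · right
      have h5 : inner ℝ (u k) z = -inner ℝ (u k) y := by linarith
      have h6 : inner ℝ (u k) z * (inner ℝ (u k') z + inner ℝ (u k') y) = 0 := by
        rw [mul_add, F2, h5, neg_mul, E2]; ring
      have h7 : inner ℝ (u k') z + inner ℝ (u k') y = 0 := by
        rcases mul_eq_zero.1 h6 with h | h
        · exact absurd h hne
        · exact h
      have hz := Z (N k) (u i) (u k) (u k') (z + y) (hc.dim k) h1.2.1
        (hc.nrm i) (hc.mem k) hk'N ((N k).add_mem zk yk) (hc.nrm k) (hc.nrm k') h1.2.2.1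
        h2.2.2.1 hg (by rw [inner_add_right, ey, ez]; ring)
        (by rw [inner_add_right]; exact h4) (by rw [inner_add_right]; exact h7)
      exact eq_neg_of_add_eq_zero_left hz
  have hmy : inner ℝ (u m) y = 0 := by
    rcases hzy with h | h
    · rw [← h]; exact F3
    · rw [h, inner_neg_right] at F3; linarith
  have hym : y ∈ N m := by
    rcases hzy with h | h
    · rw [← h]; exact zm
    · rw [h] at zm; exact (Submodule.neg_mem_iff _).1 zm
  refine ⟨?_, hmy⟩
  by_contra hne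
  have hfd := fd hc l
  have : FiniteDimensional ℝ ↥(N l ⊓ N m) := Submodule.finiteDimensional_inf_left _ _
  have hle := hLA.2.1 V (N l) (N m) (hc.dim l) (hc.dim m) (Ne.symm hne)
  have hsp := le_span (N l ⊓ N m) hle (u i) y ⟨el, em⟩ ⟨yl, hym⟩ (hc.nrm i) yn ey
  have P := (hBAS n V N u hc l m hlm).2.2.1 (u i) y (hc.nrm i) yn ey hsp
  rw [E3, hmy] at P
  have h3 : (inner ℝ (u l) (u i) - inner ℝ (u m) (u i)) *
      (inner ℝ (u l) (u i) + inner ℝ (u m) (u i)) = 0 := by
    linear_combination E4 - F4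
  rcases mul_eq_zero.1 h3 with h4 | h4
  · rw [h4] at P; norm_num at P
  · rw [h4] at P; norm_num at P

open Classical in
theorem t (hLA : S_LA) (hPL3 : S_PL3) (hBAS : S_BAS) (hNBR : S_NBR) (hELL : S_ELL) :
    Pool.Agent.Helper29.CY.S_SAM := by
  intro n V _ _ N u hc i k k' h1 h2 hkk hN
  have hk'N : u k' ∈ N k := by rw [hN]; exact hc.mem k'
  set S : Finset (Fin n) := Finset.univ.filter (fun l => l ≠ k ∧ l ≠ k' ∧ Arr N u i l) with hS
  set C : Finset (Fin n) := Finset.univ.filter (fun l => Arr N u l i) with hC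
  set B : Finset (Fin n) := Finset.univ.filter (fun l => l ≠ i ∧ l ≠ k ∧ NR N l i ∧ NR N l k)
    with hB
  have hcov : (Finset.univ : Finset (Fin n)) ⊆ {i, k, k'} ∪ S ∪ C ∪ B := by
    intro l _
    by_cases hli : l = i
    · simp [hli]
    by_cases hlk : l = k
    · simp [hlk]
    by_cases hlk' : l = k'
    · simp [hlk']
    rcases (hBAS n V N u hc l i hli).2.2.2.2.1 with h | h | h
    · rcases (hBAS n V N u hc l k hlk).2.2.2.2.1 with h' | h' | h'
      · apply Finset.mem_union_right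
        rw [hB]; simp [hli, hlk, h, h']
      · exact absurd (pb hBAS hc h1 h2 hkk hN l h') hli
      · exact absurd h' (pa hBAS hc hkk hN l)
    · apply Finset.mem_union_left
      apply Finset.mem_union_right
      rw [hC]; simp [h]
    · apply Finset.mem_union_left
      apply Finset.mem_union_left
      apply Finset.mem_union_right
      rw [hS]; simp [hlk, hlk', h]
  have hCc : C.card ≤ 1 := by
    rw [Finset.card_le_one]
    intro m hm m' hm'
    rw [hC, Finset.mem_filter] at hm hm'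
    by_contra hne
    have hnr : ∀ l : Fin n, Arr N u l i → NR N l k := by
      intro l hl
      have hlk : l ≠ k := by
        rintro rfl
        exact ((hBAS n V N u hc i l h1.1).2.2.2.2.2 h1).2 hl
      rcases (hBAS n V N u hc l k hlk).2.2.2.2.1 with h' | h' | h'
      · exact h'
      · exact absurd (pb hBAS hc h1 h2 hkk hN l h') hl.1
      · exact absurd h' (pa hBAS hc hkk hN l)
    exact (hNBR n V N u hc).2.2.2.1 i k m m' h1 hm.2 hm'.2 hne (hnr m hm.2) (hnr m' hm'.2)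
  have hSc : S.card ≤ 1 := by
    have hpl := plane (N k) (u i) (hc.dim k) h1.2.1 (hc.nrm i)
    have hk1 : k ∉ insert k' S := by
      rw [hS]; simp [hkk]
    have hk2 : k' ∉ S := by
      rw [hS]; simp
    have h3 := hPL3 V (Fin n) _ u (insert k (insert k' S)) hpl (by
      intro l hl
      rw [Finset.mem_insert, Finset.mem_insert] at hl
      rcases hl with rfl | rfl | hl
      · exact mem_plane _ _ _ (hc.mem _) h1.2.2.1
      · exact mem_plane _ _ _ hk'N h2.2.2.1
      · rw [hS, Finset.mem_filter] at hl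
        refine mem_plane _ _ _ ?_ hl.2.2.2.2.2.1
        rw [← pc hLA hBAS hNBR hc h1 h2 hkk hN l hl.2.2.2 hl.2.1 hl.2.2.1]
        exact hc.mem l) (fun l _ => hc.nrm l) (fun a _ b _ hab => (hBAS n V N u hc a b hab).1)
    rw [Finset.card_insert_of_notMem hk1, Finset.card_insert_of_notMem hk2] at h3
    omega
  have hcard : n ≤ 3 + S.card + C.card + B.card := by
    have h3 := Finset.card_le_card hcov
    rw [Finset.card_univ, Fintype.card_fin] at h3
    have h4 := Finset.card_union_le ({i, k, k'} ∪ S ∪ C) B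
    have h5 := Finset.card_union_le ({i, k, k'} ∪ S) C
    have h6 := Finset.card_union_le {i, k, k'} S
    have h7 := Finset.card_le_three (a := i) (b := k) (c := k')
    omega
  by_cases hSe : S = ∅
  · have hBc : B.card ≤ 2 := by
      by_cases hBe : B = ∅
      · rw [hBe]; simp
      obtain ⟨l, hl⟩ := Finset.nonempty_iff_ne_empty.2 hBe
      have hl' := hl
      rw [hB, Finset.mem_filter] at hl'
      obtain ⟨y, yk, yl, yn, ey, el, lk, E1, E2, E3, E4⟩ :=
        coreB hBAS hELL hc h1 h2 hkk hN hl'.2.1 hl'.2.2.2.1 hl'.2.2.2.2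
      have hpl := plane (N l) y (hc.dim l) yl yn
      have hi : i ∉ B := by rw [hB]; simp
      have h3 := hPL3 V (Fin n) _ u (insert i B) hpl (by
        intro m hm
        rw [Finset.mem_insert] at hm
        rcases hm with rfl | hm
        · exact mem_plane _ _ _ el (by rw [real_inner_comm]; exact ey)
        · by_cases hml : m = l
          · rw [hml]
            exact mem_plane _ _ _ (hc.mem l) (by rw [real_inner_comm]; exact E3)
          · rw [hB, Finset.mem_filter] at hm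
            obtain ⟨z, zk, zm, zn, ez, em, -, F1, F2, F3, F4⟩ :=
              coreB hBAS hELL hc h1 h2 hkk hN hm.2.1 hm.2.2.2.1 hm.2.2.2.2
            have h5 := pe hLA hBAS hc h1 h2 hkk hN (Ne.symm hml) yk yl yn ey el E1 E2 E3 E4
              zk zm zn ez em F1 F2 F3 F4
            refine mem_plane _ _ _ ?_ (by rw [real_inner_comm]; exact h5.2)
            rw [← h5.1]; exact hc.mem m) (fun l _ => hc.nrm l)
        (fun a _ b _ hab => (hBAS n V N u hc a b hab).1)
      rw [Finset.card_insert_of_notMem hi] at h3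
      omega
    rw [hSe, Finset.card_empty] at hcard
    omega
  · have hBe : B = ∅ := by
      by_contra hBe
      obtain ⟨l, hl⟩ := Finset.nonempty_iff_ne_empty.2 hBe
      obtain ⟨s, hs⟩ := Finset.nonempty_iff_ne_empty.2 hSe
      rw [hB, Finset.mem_filter] at hl
      rw [hS, Finset.mem_filter] at hs
      exact pd hBAS hELL hc h1 h2 hs.2.2.2 hkk (Ne.symm hs.2.1) (Ne.symm hs.2.2.1) hN
        (pc hLA hBAS hNBR hc h1 h2 hkk hN s hs.2.2.2 hs.2.1 hs.2.2.1).symm hl.2.1 hl.2.2.2.1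
        hl.2.2.2.2
    rw [hBe, Finset.card_empty] at hcard
    omega

end Pool.Agent.Helper23.CY.SAM
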